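import Mathlib
import Pool.Agent.R552.FA.Ham

/-!
# Compositions of time-one maps of vector fields `J dh`: definitions

See `Pool/Agent/R552/FA/Defs.lean` (vector fields `Fld`, trajectories `Traj`) and
`Pool/Agent/R552/FA/Ham.lean` (the vector field `Jd J h = J dh`, `Dissipative`).
-/

set_option autoImplicit false

open scoped Topology ContDiff Manifold
open Set Pool.Agent.R552.FA

noncomputable section

namespace Pool.Agent.R552.FB

universe u v

variable {E : Type u} [NormedAddCommGroup E] [NormedSpace ℝ E] {N : Type v} [TopologicalSpace N]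
  [ChartedSpace E N]

/-- `φ` is the time-one map of the vector field `X`: `φ (γ 0) = γ 1` for all trajectories `γ`. -/
def TimeOne (X : Fld E N) (φ : N → N) : Prop := ∀ γ : ℝ → N, Traj X γ → φ (γ 0) = γ 1

/-- The finite compositions of time-one maps of the vector fields `J dh`, for a fixed function `h`
and for fields `J` of linear maps from the cotangent to the tangent spaces with the property `D`. -/
inductive Comp (D : (N → (E →L[ℝ] ℝ) →ₗ[ℝ] E) → Prop) (h : N → ℝ) : (N → N) → Prop
  | id : Comp D h (fun x => x)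
  | step (J : N → (E →L[ℝ] ℝ) →ₗ[ℝ] E) (φ ψ : N → N) : D J → TimeOne (Jd J h) φ → Comp D h ψ →
      Comp D h (fun x => φ (ψ x))

/-- `J` is smooth and `ξ(Jξ) = 0` for all covectors `ξ`; for instance `J` is given by a symplectic
form or a Poisson structure. -/
def Conservative [IsManifold 𝓘(ℝ, E) ∞ N] (J : N → (E →L[ℝ] ℝ) →ₗ[ℝ] E) : Prop :=
  Dissipative ⊤ J ∧ ∀ (x : N) (ξ : E →L[ℝ] ℝ), ξ (J x ξ) = 0

end Pool.Agent.R552.FB
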