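import Mathlib
import Pool.Agent.R552.FA.Ham
import Pool.Agent.Helper186.Flow

/-! Families of flows depending smoothly on parameters. -/

set_option autoImplicit false
set_option maxHeartbeats 400000

open scoped Topology ContDiff Manifold RealInnerProductSpace
open Set MeasureTheory Filter Metric Module Pool.Agent.Helper186 Pool.Agent.R552.FA

noncomputable section

namespace Pool.Agent.R552.FB

universe u v

variable {E : Type u} [NormedAddCommGroup E] [NormedSpace ℝ E] [FiniteDimensional ℝ E]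
  {N : Type v} [TopologicalSpace N] [T2Space N] [CompactSpace N]
  [ChartedSpace E N] [IsManifold 𝓘(ℝ, E) ∞ N] {k : ℕ}

/-- the parameter space -/
abbrev Pk (k : ℕ) := EuclideanSpace ℝ (Fin k)

/-- the lift of a vector field to the product -/
def lft (k : ℕ) (Y : Fld E N) :
    (p : N × Pk k) → TangentSpace (𝓘(ℝ, E).prod 𝓘(ℝ, Pk k)) p :=
  fun p => ((Y p.1 : E), (0 : Pk k))

lemma lft_smooth {Y : Fld E N} (hY : IsCr ⊤ Y) :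
    ContMDiff (𝓘(ℝ, E).prod 𝓘(ℝ, Pk k)) (𝓘(ℝ, E).prod 𝓘(ℝ, Pk k)).tangent ∞
      (fun p : N × Pk k => (⟨p, lft k Y p⟩ : TangentBundle (𝓘(ℝ, E).prod 𝓘(ℝ, Pk k)) (N × Pk k))) := by
  have hIM : IsManifold (𝓘(ℝ, E)) 1 N := IsManifold.of_le (n := ∞) (by simp)
  have h1 : ContMDiff (𝓘(ℝ, E).prod 𝓘(ℝ, Pk k)) 𝓘(ℝ, E).tangent ∞
      (fun p : N × Pk k => (⟨p.1, Y p.1⟩ : TangentBundle 𝓘(ℝ, E) N)) :=
    ContMDiff.comp (g := fun x : N => (⟨x, Y x⟩ : TangentBundle 𝓘(ℝ, E) N)) hY contMDiff_fst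
  have h2 : ContMDiff 𝓘(ℝ, Pk k) 𝓘(ℝ, Pk k).tangent ∞
      (fun a : Pk k => (⟨a, (0 : Pk k)⟩ : TangentBundle 𝓘(ℝ, Pk k) (Pk k))) :=
    Bundle.contMDiff_zeroSection ℝ (TangentSpace 𝓘(ℝ, Pk k) : Pk k → Type _)
  have h3 : ContMDiff (𝓘(ℝ, E).prod 𝓘(ℝ, Pk k)) 𝓘(ℝ, Pk k).tangent ∞
      (fun p : N × Pk k => (⟨p.2, (0 : Pk k)⟩ : TangentBundle 𝓘(ℝ, Pk k) (Pk k))) :=
    ContMDiff.comp (g := fun a : Pk k => (⟨a, (0 : Pk k)⟩ : TangentBundle 𝓘(ℝ, Pk k) (Pk k)))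
      h2 contMDiff_snd
  exact (contMDiff_equivTangentBundleProd_symm (I := 𝓘(ℝ, E)) (I' := 𝓘(ℝ, Pk k)) (M := N)
    (M' := Pk k) (n := ∞)).comp (h1.prodMk h3)

/-- the family of fields as a field on the product -/
def big (X0 : Fld E N) (W : Fin k → Fld E N) :
    (p : N × Pk k) → TangentSpace (𝓘(ℝ, E).prod 𝓘(ℝ, Pk k)) p :=
  fun p => lft k X0 p + ∑ i, p.2 i • lft k (W i) p

lemma big_eq (X0 : Fld E N) (W : Fin k → Fld E N) (p : N × Pk k) :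
    (big X0 W p : E × Pk k) = ((comb X0 (fun i => p.2 i) W p.1 : E), (0 : Pk k)) := by
  show (((X0 p.1 : E), (0 : Pk k)) : E × Pk k) + ∑ i, p.2 i • (((W i p.1 : E), (0 : Pk k)) : E × Pk k)
    = _
  refine Prod.ext ?_ ?_
  · rw [Prod.fst_add, Prod.fst_sum]
    rfl
  · rw [Prod.snd_add, Prod.snd_sum]
    simp

lemma big_smooth {X0 : Fld E N} {W : Fin k → Fld E N} (hX0 : IsCr ⊤ X0) (hW : ∀ i, IsCr ⊤ (W i)) :
    ContMDiff (𝓘(ℝ, E).prod 𝓘(ℝ, Pk k)) (𝓘(ℝ, E).prod 𝓘(ℝ, Pk k)).tangent ∞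
      (fun p : N × Pk k => (⟨p, big X0 W p⟩ :
        TangentBundle (𝓘(ℝ, E).prod 𝓘(ℝ, Pk k)) (N × Pk k))) := by
  have h1 := lft_smooth (k := k) hX0
  have h2 : ∀ i, ContMDiff (𝓘(ℝ, E).prod 𝓘(ℝ, Pk k)) 𝓘(ℝ, ℝ) ∞ (fun p : N × Pk k => p.2 i) :=
    fun i => (EuclideanSpace.proj (𝕜 := ℝ) i : Pk k →L[ℝ] ℝ).contMDiff.comp contMDiff_snd
  have h3 := fun i => (h2 i).smul_section (lft_smooth (k := k) (hW i))
  have h4 := ContMDiff.sum_section (s := Finset.univ) (fun i _ => h3 i)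
  have h5 := h1.add_section h4
  refine h5.congr fun p => ?_
  congr 1

/-- lifting trajectories -/
lemma lift_traj {X0 : Fld E N} {W : Fin k → Fld E N} (a : Pk k) {γ : ℝ → N}
    (hγ : Traj (comb X0 (fun i => a i) W) γ) :
    IsMIntegralCurve (I := 𝓘(ℝ, E).prod 𝓘(ℝ, Pk k)) (fun t => ((γ t, a) : N × Pk k)) (big X0 W) := by
  intro t
  have h1 := hγ t
  have h2 : HasMFDerivAt 𝓘(ℝ, ℝ) 𝓘(ℝ, Pk k) (fun _ : ℝ => a) t (0 : ℝ →L[ℝ] Pk k) :=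
    hasMFDerivAt_const a t
  have h3 := h1.prodMk h2
  refine h3.congr_mfderiv ?_
  refine ContinuousLinearMap.ext fun (s : ℝ) => ?_
  show ((s • (comb X0 (fun i => a i) W (γ t) : E), (0 : Pk k)) : E × Pk k)
    = s • (big X0 W (γ t, a) : E × Pk k)
  rw [big_eq]
  refine Prod.ext rfl ?_
  show (0 : Pk k) = s • (0 : Pk k)
  rw [smul_zero]

/-- A family of diffeomorphisms, jointly smooth with its inverse. -/
def SFam (k : ℕ) (Φ : Pk k → N → N) : Prop :=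
  ContMDiff (𝓘(ℝ, Pk k).prod 𝓘(ℝ, E)) 𝓘(ℝ, E) ∞ (fun q : Pk k × N => Φ q.1 q.2) ∧
  ∃ Ψ : Pk k → N → N,
    ContMDiff (𝓘(ℝ, Pk k).prod 𝓘(ℝ, E)) 𝓘(ℝ, E) ∞ (fun q : Pk k × N => Ψ q.1 q.2) ∧
    (∀ a x, Ψ a (Φ a x) = x) ∧ ∀ a x, Φ a (Ψ a x) = x

theorem exists_family {X0 : Fld E N} {W : Fin k → Fld E N} (hX0 : IsCr ⊤ X0)
    (hW : ∀ i, IsCr ⊤ (W i)) (hX : ∀ a : Pk k, IsCr ⊤ (comb X0 (fun i => a i) W)) :
    ∃ Φ : Pk k → N → N, SFam (E := E) k Φ ∧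
      ∀ a γ, Traj (comb X0 (fun i => a i) W) γ → Φ a (γ 0) = γ 1 := by
  have hIM : IsManifold (𝓘(ℝ, E)) 1 N := IsManifold.of_le (n := ∞) (by simp)
  have hX1 : ∀ a : Pk k, IsCr 1 (comb X0 (fun i => a i) W) := fun a =>
    ContMDiff.of_le (hX a) (by exact_mod_cast le_top)
  have hex : ∀ (x : N) (a : Pk k), ∃ γ : ℝ → N, γ 0 = x ∧ Traj (comb X0 (fun i => a i) W) γ :=
    fun x a => complete1 (I := 𝓘(ℝ, E)) (hX1 a) x
  choose fl hfl0 hfl using hex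
  set Fl : N × Pk k → ℝ → N × Pk k := fun p t => (fl p.1 p.2 t, p.2) with hFl
  have h0 : ∀ p, Fl p 0 = p := fun p => by rw [hFl]; simp only [hfl0]
  have hI : ∀ p, IsMIntegralCurve (I := 𝓘(ℝ, E).prod 𝓘(ℝ, Pk k)) (Fl p) (big X0 W) := fun p =>
    lift_traj p.2 (hfl p.1 p.2)
  have hsm := contMDiff_flow (I := 𝓘(ℝ, E).prod 𝓘(ℝ, Pk k)) (big_smooth hX0 hW) h0 hI
  have hone : ∀ t : ℝ, ContMDiff (𝓘(ℝ, Pk k).prod 𝓘(ℝ, E)) 𝓘(ℝ, E) ∞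
      (fun q : Pk k × N => fl q.2 q.1 t) := by
    intro t
    have h1 : ContMDiff (𝓘(ℝ, Pk k).prod 𝓘(ℝ, E)) ((𝓘(ℝ, E).prod 𝓘(ℝ, Pk k)).prod 𝓘(ℝ, ℝ)) ∞
        (fun q : Pk k × N => (((q.2, q.1), t) : (N × Pk k) × ℝ)) :=
      (contMDiff_snd.prodMk contMDiff_fst).prodMk contMDiff_const
    exact contMDiff_fst.comp (hsm.comp h1)
  have hadd : ∀ (x : N) (a : Pk k) (s t : ℝ), fl x a (s + t) = fl (fl x a s) a t := fun x a s t =>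
    flow_add1 (I := 𝓘(ℝ, E)) (Fl := fun x t => fl x a t) (hX1 a) (fun x => hfl0 x a)
      (fun x => hfl x a) x s t
  refine ⟨fun a x => fl x a 1, ⟨hone 1, fun a x => fl x a (-1), hone (-1), ?_, ?_⟩, ?_⟩
  · intro a x
    show fl (fl x a 1) a (-1) = x
    rw [← hadd, add_neg_cancel, hfl0]
  · intro a x
    show fl (fl x a (-1)) a 1 = x
    rw [← hadd, neg_add_cancel, hfl0]
  · intro a γ hγ
    have h2 := curve_unique (I := 𝓘(ℝ, E)) (hX1 a) (hfl (γ 0) a) hγ (hfl0 _ _)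
    show fl (γ 0) a 1 = γ 1
    rw [h2]

lemma SFam.comp {Φ Ψ : Pk k → N → N} (h1 : SFam (E := E) k Φ) (h2 : SFam (E := E) k Ψ) :
    SFam (E := E) k (fun a x => Φ a (Ψ a x)) := by
  obtain ⟨a1, Φ', a2, a3, a4⟩ := h1
  obtain ⟨b1, Ψ', b2, b3, b4⟩ := h2
  refine ⟨?_, fun a x => Ψ' a (Φ' a x), ?_, ?_, ?_⟩
  · exact a1.comp (contMDiff_fst.prodMk b1)
  · exact b2.comp (contMDiff_fst.prodMk a2)
  · intro a x
    show Ψ' a (Φ' a (Φ a (Ψ a x))) = x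
    rw [a3, b3]
  · intro a x
    show Φ a (Ψ a (Ψ' a (Φ' a x))) = x
    rw [b4, a4]

lemma SFam.id : SFam (E := E) (N := N) k (fun _ x => x) :=
  ⟨contMDiff_snd, fun _ x => x, contMDiff_snd, fun _ _ => rfl, fun _ _ => rfl⟩

/-- the diffeomorphisms of a family -/
lemma SFam.diffeo {Φ : Pk k → N → N} (h : SFam (E := E) k Φ) (r : ℕ∞) :
    ∃ H : Pk k → Diffeomorph 𝓘(ℝ, E) 𝓘(ℝ, E) N N r, ∀ a x, H a x = Φ a x := by
  obtain ⟨a1, Ψ, a2, a3, a4⟩ := h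
  have hs : ∀ a : Pk k, ContMDiff 𝓘(ℝ, E) (𝓘(ℝ, Pk k).prod 𝓘(ℝ, E)) ∞
      (fun x : N => ((a, x) : Pk k × N)) := fun a => contMDiff_const.prodMk contMDiff_id
  refine ⟨fun a => ⟨⟨Φ a, Ψ a, a3 a, a4 a⟩, ?_, ?_⟩, fun a x => rfl⟩
  · exact ContMDiff.of_le (a1.comp (hs a)) (by exact_mod_cast le_top)
  · exact ContMDiff.of_le (a2.comp (hs a)) (by exact_mod_cast le_top)

end Pool.Agent.R552.FB
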