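import Mathlib
import Pool.Agent.R552.FA.Crit

/-! For almost every `a` the critical points of `h + ⟨a, e⟩` are nondegenerate. -/

set_option autoImplicit false
set_option maxHeartbeats 400000

open scoped Topology ContDiff Manifold RealInnerProductSpace
open Set MeasureTheory Filter Metric Module Pool.Agent.R552.FA

noncomputable section

namespace Pool.Agent.R552.FB

universe u v

section loc

variable {E : Type*} [NormedAddCommGroup E] [NormedSpace ℝ E] [FiniteDimensional ℝ E] {k : ℕ}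
variable {V : Set E} {H : E → ℝ} {U : E → EuclideanSpace ℝ (Fin k)}
  {ι : E →L[ℝ] EuclideanSpace ℝ (Fin k)} {T : E ≃L[ℝ] (E →L[ℝ] ℝ)} {K : Set E}

theorem bad_null (hV : IsOpen V) (hH : ∀ w ∈ V, ContDiffAt ℝ 2 H w)
    (hU : ∀ w ∈ V, ContDiffAt ℝ 2 U w) (hT : ∀ w ∈ V, ∀ b, ⟪ι b, U w⟫ = T b w)
    (hK : IsCompact K) (hKV : K ⊆ V) : volume (Bad T H U K) = 0 := by
  letI : MeasurableSpace E := borel E
  haveI : BorelSpace E := ⟨rfl⟩
  refine null_of_sections volume (Measure.addHaar (G := E)) (-ι) (bad_meas hH hU hK hKV) ?_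
  intro a
  have h1 : {b | a + (-ι) b ∈ Bad T H U K} ⊆
      (gam T H U a) '' {w ∈ K | (fderiv ℝ (gam T H U a) w).det = 0} := by
    rintro b ⟨w, hw, h2, h3⟩
    rw [gam_shift hV hH hU hT a b (hKV hw)] at h2
    rw [der_shift hV hH hU hT a b (hKV hw)] at h3
    exact ⟨w, ⟨hw, h3⟩, (sub_eq_zero.1 h2)⟩
  refine measure_mono_null h1 ?_
  refine addHaar_image_eq_zero_of_det_fderivWithin_eq_zero _
    (f' := fun w => fderiv ℝ (gam T H U a) w) (fun w hw => ?_) (fun w hw => hw.2)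
  exact (gam_diff hH hU a (hKV hw.1)).hasFDerivWithinAt

/-- **local statement** -/
theorem local_nd (hV : IsOpen V) (hH : ∀ w ∈ V, ContDiffAt ℝ 2 H w)
    (hU : ∀ w ∈ V, ContDiffAt ℝ 2 U w) (hT : ∀ w ∈ V, ∀ b, ⟪ι b, U w⟫ = T b w)
    (hK : IsCompact K) (hKV : K ⊆ V) :
    ∀ᵐ a : EuclideanSpace ℝ (Fin k), ∀ w ∈ K, fderiv ℝ (Phi H U a) w = 0 →
      ∀ v, fderiv ℝ (fderiv ℝ (Phi H U a)) w v = 0 → v = 0 := by
  have h1 : ∀ᵐ a : EuclideanSpace ℝ (Fin k), a ∉ Bad T H U K := by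
    rw [ae_iff]
    simpa using bad_null (T := T) hV hH hU hT hK hKV
  filter_upwards [h1] with a ha w hw hc v hv
  have hg0 : gam T H U a w = 0 := by
    unfold gam
    rw [hc, map_zero]
  have hdet : (fderiv ℝ (gam T H U a) w).det ≠ 0 := fun h => ha ⟨w, hw, hg0, h⟩
  have hP2 : ContDiffAt ℝ 2 (Phi H U a) w :=
    ContDiffAt.comp w (phi_smooth hH hU a (hKV hw)) (contDiffAt_const.prodMk contDiffAt_id)
  have hP1 : DifferentiableAt ℝ (fderiv ℝ (Phi H U a)) w :=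
    (hP2.fderiv_right (m := 1) (by norm_num)).differentiableAt one_ne_zero
  have h2 : fderiv ℝ (gam T H U a) w =
      (T.symm : (E →L[ℝ] ℝ) →L[ℝ] E).comp (fderiv ℝ (fderiv ℝ (Phi H U a)) w) := by
    have h3 := (T.symm : (E →L[ℝ] ℝ) →L[ℝ] E).hasFDerivAt.comp w hP1.hasFDerivAt
    exact h3.fderiv
  have h3 : fderiv ℝ (gam T H U a) w v = 0 := by
    rw [h2, ContinuousLinearMap.comp_apply, hv, map_zero]
  set e := ContinuousLinearMap.toContinuousLinearEquivOfDetNeZero _ hdet with he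
  have h4 : e v = 0 := h3
  exact e.map_eq_zero_iff.1 h4

/-- invariance of nondegeneracy under changes of coordinates -/
lemma nd_transfer {g f : E → ℝ} {τ σ : E → E} {y : E} (hg : ContDiffAt ℝ 2 g (τ y))
    (hτ : ContDiffAt ℝ 2 τ y) (hσ : DifferentiableAt ℝ σ (τ y))
    (h1 : ∀ᶠ z in 𝓝 y, σ (τ z) = z) (h2 : ∀ᶠ w in 𝓝 (τ y), τ (σ w) = w)
    (hf : f =ᶠ[𝓝 y] g ∘ τ) (hc : fderiv ℝ g (τ y) = 0)
    (hnd : ∀ v, fderiv ℝ (fderiv ℝ g) (τ y) v = 0 → v = 0) :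
    ∀ v, fderiv ℝ (fderiv ℝ f) y v = 0 → v = 0 := by
  have hσy : σ (τ y) = y := h1.self_of_nhds
  have hτ1 : HasFDerivAt τ (fderiv ℝ τ y) y := (hτ.differentiableAt two_ne_zero).hasFDerivAt
  have hσ1 := hσ.hasFDerivAt
  set A := fderiv ℝ τ y with hA
  set B := fderiv ℝ σ (τ y) with hB
  have e1 : B.comp A = ContinuousLinearMap.id ℝ E := by
    have h3 := hσ1.comp y hτ1
    have h4 : HasFDerivAt (σ ∘ τ) (ContinuousLinearMap.id ℝ E) y :=
      (hasFDerivAt_id y).congr_of_eventuallyEq h1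
    exact h3.unique h4
  have e2 : A.comp B = ContinuousLinearMap.id ℝ E := by
    have hτ1' : HasFDerivAt τ A (σ (τ y)) := by rw [hσy]; exact hτ1
    have h3 := hτ1'.comp (τ y) hσ1
    have h4 : HasFDerivAt (τ ∘ σ) (ContinuousLinearMap.id ℝ E) (τ y) :=
      (hasFDerivAt_id (τ y)).congr_of_eventuallyEq h2
    exact h3.unique h4
  have hgd : ∀ᶠ w in 𝓝 (τ y), DifferentiableAt ℝ g w := by
    have h3 := hg.eventually (by simp)
    filter_upwards [h3] with w hw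
    exact hw.differentiableAt two_ne_zero
  have hτd : ∀ᶠ z in 𝓝 y, DifferentiableAt ℝ τ z := by
    have h3 := hτ.eventually (by simp)
    filter_upwards [h3] with w hw
    exact hw.differentiableAt two_ne_zero
  have hev : fderiv ℝ f =ᶠ[𝓝 y] fun z => (fderiv ℝ g (τ z)).comp (fderiv ℝ τ z) := by
    have h3 := hτ.continuousAt.eventually hgd
    have h4 := hf.eventuallyEq_nhds
    filter_upwards [h3, hτd, h4] with z z1 z2 z3
    rw [z3.fderiv_eq]
    exact fderiv_comp z z1 z2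
  have hg2 : HasFDerivAt (fderiv ℝ g) (fderiv ℝ (fderiv ℝ g) (τ y)) (τ y) :=
    ((hg.fderiv_right (m := 1) (by norm_num)).differentiableAt one_ne_zero).hasFDerivAt
  have hτ2 : HasFDerivAt (fderiv ℝ τ) (fderiv ℝ (fderiv ℝ τ) y) y :=
    ((hτ.fderiv_right (m := 1) (by norm_num)).differentiableAt one_ne_zero).hasFDerivAt
  have h5 := (hg2.comp y hτ1).clm_comp hτ2
  intro v hv
  rw [hev.fderiv_eq] at hv
  have h6 : fderiv ℝ (fun z => (fderiv ℝ g (τ z)).comp (fderiv ℝ τ z)) y v =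
      (fderiv ℝ (fderiv ℝ g) (τ y) (A v)).comp A := by
    have h7 := h5.fderiv
    have h8 : (fun z => (fderiv ℝ g (τ z)).comp (fderiv ℝ τ z)) =
        fun y => ((fderiv ℝ g ∘ τ) y).comp (fderiv ℝ τ y) := rfl
    rw [h8, h7]
    ext u
    simp [hc, hA]
  rw [h6] at hv
  have h7 : fderiv ℝ (fderiv ℝ g) (τ y) (A v) = 0 := by
    have h8 := congrArg (fun l : E →L[ℝ] ℝ => l.comp B) hv
    simp only [ContinuousLinearMap.zero_comp] at h8
    rw [ContinuousLinearMap.comp_assoc, e2, ContinuousLinearMap.comp_id] at h8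
    exact h8
  have h8 := hnd _ h7
  have h9 : B (A v) = v := by
    have := DFunLike.congr_fun e1 v
    exact this
  rw [← h9, h8, map_zero]

end loc

variable {E : Type u} [NormedAddCommGroup E] [NormedSpace ℝ E] [FiniteDimensional ℝ E]
  {N : Type v} [TopologicalSpace N] [ChartedSpace E N] [IsManifold 𝓘(ℝ, E) ∞ N] {k : ℕ}

variable (E) in
/-- the second derivative of `f` at `x` is nondegenerate in every chart -/
def Nd (f : N → ℝ) (x : N) : Prop :=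
  ∀ χ ∈ IsManifold.maximalAtlas 𝓘(ℝ, E) ∞ N, x ∈ χ.source →
    ∀ v : E, fderiv ℝ (fderiv ℝ fun w => f (χ.symm w)) (χ x) v = 0 → v = 0

theorem nbhd_nd {e : N → EuclideanSpace ℝ (Fin k)}
    (he : ContMDiff 𝓘(ℝ, E) 𝓘(ℝ, EuclideanSpace ℝ (Fin k)) ∞ e) (x₀ : N)
    (hinj : Function.Injective (mfderiv 𝓘(ℝ, E) 𝓘(ℝ, EuclideanSpace ℝ (Fin k)) e x₀))
    {h : N → ℝ} (hh : Smooth E h) :
    ∃ O ∈ 𝓝 x₀, ∀ᵐ a : EuclideanSpace ℝ (Fin k),
      ∀ x ∈ O, IsCrit E (fun x => h x + ⟪a, e x⟫) x → Nd E (fun x => h x + ⟪a, e x⟫) x := by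
  set φ := extChartAt 𝓘(ℝ, E) x₀ with hφ
  set y₀ : E := φ x₀ with hy₀
  set u : E → EuclideanSpace ℝ (Fin k) := fun y => e (φ.symm y) with hu
  set h' : E → ℝ := fun y => h (φ.symm y) with hh'
  have htgt : IsOpen φ.target := isOpen_extChartAt_target x₀
  have hy₀t : y₀ ∈ φ.target := mem_extChartAt_target x₀
  have hsymm : ∀ y ∈ φ.target, ContMDiffAt 𝓘(ℝ, E) 𝓘(ℝ, E) ∞ φ.symm y := fun y hy =>
    (contMDiffOn_extChartAt_symm x₀).contMDiffAt (htgt.mem_nhds hy)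
  have hu2 : ∀ y ∈ φ.target, ContDiffAt ℝ 2 u y := by
    intro y hy
    have h1 : ContMDiffAt 𝓘(ℝ, E) 𝓘(ℝ, EuclideanSpace ℝ (Fin k)) ∞ u y :=
      ContMDiffAt.comp y (he _) (hsymm y hy)
    exact (contMDiffAt_iff_contDiffAt.1 h1).of_le two_le_infty
  have hh2 : ∀ y ∈ φ.target, ContDiffAt ℝ 2 h' y := by
    intro y hy
    have h1 : ContMDiffAt 𝓘(ℝ, E) 𝓘(ℝ, ℝ) ∞ h' y := ContMDiffAt.comp y (hh _) (hsymm y hy)
    exact (contMDiffAt_iff_contDiffAt.1 h1).of_le two_le_infty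
  set D₀ : E →L[ℝ] EuclideanSpace ℝ (Fin k) := fderiv ℝ u y₀ with hD₀
  have hDm : Function.Injective D₀ := by
    have h1 : (mfderiv 𝓘(ℝ, E) 𝓘(ℝ, EuclideanSpace ℝ (Fin k)) e x₀ :
        E →L[ℝ] EuclideanSpace ℝ (Fin k)) = D₀ := by
      have hmd : MDifferentiableAt 𝓘(ℝ, E) 𝓘(ℝ, EuclideanSpace ℝ (Fin k)) e x₀ :=
        he.mdifferentiableAt (by simp)
      rw [mfderiv, if_pos hmd, hD₀, ← fderivWithin_univ]
      congr 1
      · exact (modelWithCornersSelf_coe ℝ E ▸ range_id)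
    rw [← h1]
    exact hinj
  obtain ⟨T, hT⟩ := exists_iso D₀ hDm
  set wm : E → E := fun y => T.symm (L1 D₀ (u y)) with hwm
  have hw2 : ∀ y ∈ φ.target, ContDiffAt ℝ 2 wm y := by
    intro y hy
    exact (T.symm.contDiff.contDiffAt).comp y ((L1 D₀).contDiff.contDiffAt.comp y (hu2 y hy))
  have hwd : HasFDerivAt wm ((ContinuousLinearEquiv.refl ℝ E : E ≃L[ℝ] E) : E →L[ℝ] E) y₀ := by
    have h1 : HasFDerivAt u D₀ y₀ := ((hu2 y₀ hy₀t).differentiableAt two_ne_zero).hasFDerivAt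
    have h2 := ((T.symm : (E →L[ℝ] ℝ) →L[ℝ] E).hasFDerivAt).comp y₀
      (((L1 D₀).hasFDerivAt).comp y₀ h1)
    refine h2.congr_fderiv ?_
    refine ContinuousLinearMap.ext fun b => ?_
    show T.symm (L1 D₀ (D₀ b)) = b
    rw [← hT b, ContinuousLinearEquiv.symm_apply_apply]
  set R := (hw2 y₀ hy₀t).toOpenPartialHomeomorph wm hwd two_ne_zero with hR
  have hRc : ∀ y, R y = wm y := fun y => rfl
  have hy₀R : y₀ ∈ R.source := (hw2 y₀ hy₀t).mem_toOpenPartialHomeomorph_source hwd two_ne_zero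
  set w₀ : E := wm y₀ with hw₀
  have hw₀R : w₀ ∈ R.target := R.map_source hy₀R
  have hv0 : ContDiffAt ℝ 2 R.symm w₀ := (hw2 y₀ hy₀t).to_localInverse hwd two_ne_zero
  have hRw₀ : R.symm w₀ = y₀ := R.left_inv hy₀R
  have hG : {w | w ∈ R.target ∧ R.symm w ∈ φ.target ∧ ContDiffAt ℝ 2 R.symm w} ∈ 𝓝 w₀ := by
    have e1 : ∀ᶠ w in 𝓝 w₀, w ∈ R.target := R.open_target.mem_nhds hw₀R
    have e2 : ∀ᶠ w in 𝓝 w₀, R.symm w ∈ φ.target := by
      have e3 : φ.target ∈ 𝓝 (R.symm w₀) := by rw [hRw₀]; exact htgt.mem_nhds hy₀t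
      exact hv0.continuousAt.eventually e3
    have e4 := hv0.eventually (by simp)
    filter_upwards [e1, e2, e4] with w a1 a2 a3
    exact ⟨a1, a2, a3⟩
  obtain ⟨ρ, hρ, hball⟩ := Metric.mem_nhds_iff.1 hG
  have := FiniteDimensional.proper_real E
  have hHV : ∀ w ∈ ball w₀ ρ, ContDiffAt ℝ 2 (fun w => h' (R.symm w)) w := fun w hw =>
    (hh2 _ (hball hw).2.1).comp w (hball hw).2.2
  have hUV : ∀ w ∈ ball w₀ ρ, ContDiffAt ℝ 2 (fun w => u (R.symm w)) w := fun w hw =>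
    (hu2 _ (hball hw).2.1).comp w (hball hw).2.2
  have key := local_nd (V := ball w₀ ρ) (H := fun w => h' (R.symm w)) (U := fun w => u (R.symm w))
    (ι := D₀) (T := T) (K := closedBall w₀ (ρ / 2)) isOpen_ball hHV hUV
    ?_ (isCompact_closedBall _ _)
    (closedBall_subset_ball (by linarith))
  swap
  · intro w hw b
    have e1 : wm (R.symm w) = w := R.right_inv (hball hw).1
    have e2 : T w = L1 D₀ (u (R.symm w)) := by
      conv_lhs => rw [← e1]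
      rw [hwm]
      exact T.apply_symm_apply _
    have e3 : T w b = ⟪u (R.symm w), D₀ b⟫ := by rw [e2]; rfl
    have e4 : T b w = T w b := by
      rw [hT b, hT w, L1_apply, L1_apply, real_inner_comm]
    rw [e4, e3, real_inner_comm]
  refine ⟨φ.source ∩ φ ⁻¹' (R.source ∩ wm ⁻¹' (closedBall w₀ (ρ / 2))), ?_, ?_⟩
  · refine Filter.inter_mem (extChartAt_source_mem_nhds x₀) ?_
    refine (continuousAt_extChartAt x₀).preimage_mem_nhds ?_
    refine Filter.inter_mem (R.open_source.mem_nhds hy₀R) ?_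
    exact (hw2 y₀ hy₀t).continuousAt.preimage_mem_nhds (closedBall_mem_nhds _ (by positivity))
  filter_upwards [key] with a ha
  rintro x ⟨hx1, hx2, hx3⟩ hcrit χ hχ hxχ
  have hRx : R.symm (wm (φ x)) = φ x := R.left_inv hx2
  set w := wm (φ x) with hw
  have hwV : w ∈ ball w₀ ρ := closedBall_subset_ball (by linarith) hx3
  have hψx : φ.symm (R.symm w) = x := by rw [hRx]; exact φ.left_inv hx1
  have h1 : MDifferentiableAt 𝓘(ℝ, E) 𝓘(ℝ, E) (fun w => φ.symm (R.symm w)) w := by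
    have h2 : MDifferentiableAt 𝓘(ℝ, E) 𝓘(ℝ, E) φ.symm (R.symm w) :=
      (hsymm _ (hball hwV).2.1).mdifferentiableAt (by simp)
    have h3 : MDifferentiableAt 𝓘(ℝ, E) 𝓘(ℝ, E) R.symm w :=
      ((hball hwV).2.2.differentiableAt two_ne_zero).mdifferentiableAt
    exact MDifferentiableAt.comp w h2 h3
  have hfs : ContMDiff 𝓘(ℝ, E) 𝓘(ℝ, ℝ) ∞ (fun x => h x + ⟪a, e x⟫) := by
    have hh3 : ContMDiff 𝓘(ℝ, E) 𝓘(ℝ, ℝ) ∞ h := hh
    have hh4 : ContMDiff 𝓘(ℝ, E) 𝓘(ℝ, ℝ) ∞ (fun x => ⟪a, e x⟫) :=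
      ((innerSL ℝ a).contMDiff).comp he
    have hh5 : ContDiff ℝ ∞ (fun p : ℝ × ℝ => p.1 + p.2) := contDiff_fst.add contDiff_snd
    exact hh5.contMDiff.comp (hh3.prodMk_space hh4)
  have h4 : HasMFDerivAt 𝓘(ℝ, E) 𝓘(ℝ, ℝ) (fun x => h x + ⟪a, e x⟫) (φ.symm (R.symm w))
      (0 : E →L[ℝ] ℝ) := by
    have h5 := (hfs.mdifferentiableAt (x := φ.symm (R.symm w)) (by simp)).hasMFDerivAt
    have h6 : mfderiv 𝓘(ℝ, E) 𝓘(ℝ, ℝ) (fun x => h x + ⟪a, e x⟫) (φ.symm (R.symm w)) =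
        (0 : E →L[ℝ] ℝ) := by
      rw [hψx]; exact hcrit
    rw [h6] at h5
    exact h5
  have h7 := HasMFDerivAt.comp w h4 h1.hasMFDerivAt
  have h8 : HasFDerivAt (Phi (fun w => h' (R.symm w)) (fun w => u (R.symm w)) a)
      (show E →L[ℝ] ℝ from (0 : E →L[ℝ] ℝ).comp (show E →L[ℝ] E from
        (mfderiv 𝓘(ℝ, E) 𝓘(ℝ, E) (fun w => φ.symm (R.symm w)) w))) w :=
    hasMFDerivAt_iff_hasFDerivAt.1 h7
  have hc0 : fderiv ℝ (Phi (fun w => h' (R.symm w)) (fun w => u (R.symm w)) a) w = 0 := by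
    rw [h8.fderiv]
    exact ContinuousLinearMap.zero_comp _
  have hnd := ha w hx3 hc0
  -- the change of coordinates
  have hchart : ContMDiffAt 𝓘(ℝ, E) 𝓘(ℝ, E) ∞ φ x := contMDiffAt_extChartAt' (by
    rwa [hφ, extChartAt_source] at hx1)
  have hχs : ContMDiffAt 𝓘(ℝ, E) 𝓘(ℝ, E) ∞ χ.symm (χ x) :=
    (contMDiffOn_symm_of_mem_maximalAtlas hχ).contMDiffAt
      (χ.open_target.mem_nhds (χ.map_source hxχ))
  have hχx : χ.symm (χ x) = x := χ.left_inv hxχ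
  have hχc : ContMDiffAt 𝓘(ℝ, E) 𝓘(ℝ, E) ∞ χ x :=
    (contMDiffOn_of_mem_maximalAtlas hχ).contMDiffAt (χ.open_source.mem_nhds hxχ)
  have hφt : φ x ∈ φ.target := φ.map_source hx1
  have hτ : ContDiffAt ℝ 2 (fun z => wm (φ (χ.symm z))) (χ x) := by
    have h9 : ContMDiffAt 𝓘(ℝ, E) 𝓘(ℝ, E) ∞ (fun z => φ (χ.symm z)) (χ x) := by
      refine ContMDiffAt.comp (χ x) ?_ hχs
      rw [hχx]; exact hchart
    have h10 : ContDiffAt ℝ 2 (fun z => φ (χ.symm z)) (χ x) :=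
      (contMDiffAt_iff_contDiffAt.1 h9).of_le two_le_infty
    have h11 : ContDiffAt ℝ 2 wm (φ (χ.symm (χ x))) := by
      rw [hχx]
      exact hw2 _ hφt
    exact ContDiffAt.comp (g := wm) (f := fun z => φ (χ.symm z)) (χ x) h11 h10
  have hev1 : ∀ᶠ z in 𝓝 (χ x), χ.symm z ∈ φ.source ∧ φ (χ.symm z) ∈ R.source ∧ z ∈ χ.target := by
    have e1 : ∀ᶠ z in 𝓝 (χ x), χ.symm z ∈ φ.source := by
      have : φ.source ∈ 𝓝 (χ.symm (χ x)) := by
        rw [hχx]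
        exact (isOpen_extChartAt_source x₀).mem_nhds hx1
      exact hχs.continuousAt.eventually this
    have e2 : ∀ᶠ z in 𝓝 (χ x), φ (χ.symm z) ∈ R.source := by
      have h9 : ContinuousAt (fun z => φ (χ.symm z)) (χ x) := by
        refine ContinuousAt.comp ?_ hχs.continuousAt
        rw [hχx]; exact hchart.continuousAt
      have : R.source ∈ 𝓝 (φ (χ.symm (χ x))) := by
        rw [hχx]
        exact R.open_source.mem_nhds hx2
      exact h9.eventually this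
    filter_upwards [e1, e2, χ.open_target.mem_nhds (χ.map_source hxχ)] with z z1 z2 z3
    exact ⟨z1, z2, z3⟩
  have hτx : wm (φ (χ.symm (χ x))) = w := by rw [hχx]
  have hσ : ContMDiffAt 𝓘(ℝ, E) 𝓘(ℝ, E) 1 (fun w => χ (φ.symm (R.symm w))) w := by
    have e1 : ContMDiffAt 𝓘(ℝ, E) 𝓘(ℝ, E) 1 R.symm w :=
      ((hball hwV).2.2.of_le (by norm_num)).contMDiffAt
    have e2 : ContMDiffAt 𝓘(ℝ, E) 𝓘(ℝ, E) 1 φ.symm (R.symm w) :=
      (hsymm _ (hball hwV).2.1).of_le (by simp)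
    have e3 : ContMDiffAt 𝓘(ℝ, E) 𝓘(ℝ, E) 1 χ (φ.symm (R.symm w)) := by
      rw [hψx]; exact hχc.of_le (by simp)
    exact e3.comp w (e2.comp w e1)
  have hball2 : ball w₀ ρ ∈ 𝓝 w := isOpen_ball.mem_nhds hwV
  have hev2 : ∀ᶠ w' in 𝓝 w, wm (φ (χ.symm (χ (φ.symm (R.symm w'))))) = w' := by
    have e1 : ContinuousAt (fun w' => φ.symm (R.symm w')) w := h1.continuousAt
    have e2 : ∀ᶠ w' in 𝓝 w, φ.symm (R.symm w') ∈ χ.source := by
      have : χ.source ∈ 𝓝 (φ.symm (R.symm w)) := by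
        rw [hψx]; exact χ.open_source.mem_nhds hxχ
      exact e1.eventually this
    filter_upwards [e2, hball2] with w' w1 w2
    rw [χ.left_inv w1, φ.right_inv (hball w2).2.1]
    exact R.right_inv (hball w2).1
  refine nd_transfer (g := Phi (fun w => h' (R.symm w)) (fun w => u (R.symm w)) a)
    (τ := fun z => wm (φ (χ.symm z))) (σ := fun w => χ (φ.symm (R.symm w))) ?_ hτ ?_ ?_ ?_ ?_ ?_ ?_
  · show ContDiffAt ℝ 2 _ (wm (φ (χ.symm (χ x))))
    rw [hτx]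
    exact ContDiffAt.comp w (phi_smooth hHV hUV a hwV) (contDiffAt_const.prodMk contDiffAt_id)
  · show DifferentiableAt ℝ _ (wm (φ (χ.symm (χ x))))
    rw [hτx]
    exact (contMDiffAt_iff_contDiffAt.1 hσ).differentiableAt one_ne_zero
  · filter_upwards [hev1] with z hz
    show χ (φ.symm (R.symm (wm (φ (χ.symm z))))) = z
    have e1 : R.symm (wm (φ (χ.symm z))) = φ (χ.symm z) := R.left_inv hz.2.1
    rw [e1, φ.left_inv hz.1, χ.right_inv hz.2.2]
  · show ∀ᶠ w' in 𝓝 (wm (φ (χ.symm (χ x)))), _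
    rw [hτx]
    exact hev2
  · filter_upwards [hev1] with z hz
    show h (χ.symm z) + ⟪a, e (χ.symm z)⟫ = h' (R.symm (wm (φ (χ.symm z)))) +
      ⟪a, u (R.symm (wm (φ (χ.symm z))))⟫
    have e1 : R.symm (wm (φ (χ.symm z))) = φ (χ.symm z) := R.left_inv hz.2.1
    rw [e1, hh', hu]
    simp only [φ.left_inv hz.1]
  · show fderiv ℝ _ (wm (φ (χ.symm (χ x)))) = 0
    rw [hτx]
    exact hc0
  · show ∀ v, fderiv ℝ (fderiv ℝ _) (wm (φ (χ.symm (χ x)))) v = 0 → v = 0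
    rw [hτx]
    exact hnd

/-- **Nondegenerate critical points** -/
theorem ae_nd [CompactSpace N] {e : N → EuclideanSpace ℝ (Fin k)}
    (he : ContMDiff 𝓘(ℝ, E) 𝓘(ℝ, EuclideanSpace ℝ (Fin k)) ∞ e)
    (hinj : ∀ x, Function.Injective (mfderiv 𝓘(ℝ, E) 𝓘(ℝ, EuclideanSpace ℝ (Fin k)) e x))
    {h : N → ℝ} (hh : Smooth E h) :
    ∀ᵐ a : EuclideanSpace ℝ (Fin k), ∀ x, IsCrit E (fun x => h x + ⟪a, e x⟫) x →
      Nd E (fun x => h x + ⟪a, e x⟫) x := by
  have key : ∀ᵐ a : EuclideanSpace ℝ (Fin k),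
      ∀ x ∈ (univ : Set N), IsCrit E (fun x => h x + ⟪a, e x⟫) x →
        Nd E (fun x => h x + ⟪a, e x⟫) x := by
    refine isCompact_univ.induction_on (p := fun S => ∀ᵐ a : EuclideanSpace ℝ (Fin k),
      ∀ x ∈ S, IsCrit E (fun x => h x + ⟪a, e x⟫) x → Nd E (fun x => h x + ⟪a, e x⟫) x)
      ?_ ?_ ?_ ?_
    · simp
    · intro s t hst h1
      filter_upwards [h1] with a ha x hx
      exact ha x (hst hx)
    · intro s t h1 h2
      filter_upwards [h1, h2] with a ha hb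
      rintro x (hx | hx)
      · exact ha x hx
      · exact hb x hx
    · intro x _
      obtain ⟨O, hO, h1⟩ := nbhd_nd he x (hinj x) hh
      exact ⟨O, mem_nhdsWithin_of_mem_nhds hO, h1⟩
  filter_upwards [key] with a ha x
  exact ha x (mem_univ x)

end Pool.Agent.R552.FB
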