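import Mathlib
import Pool.Agent.R552.FB.Defs
import Pool.Agent.R552.FB.Flow
import Pool.Agent.R552.FB.Nd
import Pool.Agent.Y318.MN.Main
import Pool.Agent.Y318.MN.Cyc

/-! Approximation of the compositions of time-one maps. -/

set_option autoImplicit false
set_option maxHeartbeats 400000

open scoped Topology ContDiff Manifold RealInnerProductSpace
open Set MeasureTheory Filter Metric Module Pool.Agent.R552.FA

noncomputable section

namespace Pool.Agent.R552.FB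

universe u v

section gen

variable {E : Type u} [NormedAddCommGroup E] [NormedSpace ℝ E] [FiniteDimensional ℝ E]
  {N : Type v} [TopologicalSpace N] [T2Space N] [CompactSpace N]
  [ChartedSpace E N] [IsManifold 𝓘(ℝ, E) ∞ N] {k : ℕ}

lemma isCr1 {J : N → (E →L[ℝ] ℝ) →ₗ[ℝ] E} (hJ : Dissipative ⊤ J) {h : N → ℝ} (hh : Smooth E h) :
    IsCr 1 (Jd J h) := ContMDiff.of_le (hJ.1 h hh) (by exact_mod_cast le_top)

lemma exists_traj {J : N → (E →L[ℝ] ℝ) →ₗ[ℝ] E} (hJ : Dissipative ⊤ J) {h : N → ℝ}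
    (hh : Smooth E h) (x : N) : ∃ γ : ℝ → N, γ 0 = x ∧ Traj (Jd J h) γ := by
  have hIM : IsManifold (𝓘(ℝ, E)) 1 N := IsManifold.of_le (n := ∞) (by simp)
  exact complete1 (I := 𝓘(ℝ, E)) (isCr1 hJ hh) x

lemma timeOne_unique {J : N → (E →L[ℝ] ℝ) →ₗ[ℝ] E} (hJ : Dissipative ⊤ J) {h : N → ℝ}
    (hh : Smooth E h) {φ ψ : N → N} (h1 : TimeOne (Jd J h) φ) (h2 : TimeOne (Jd J h) ψ) (x : N) :
    φ x = ψ x := by
  obtain ⟨γ, h0, hγ⟩ := exists_traj hJ hh x
  rw [← h0, h1 γ hγ, h2 γ hγ]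

lemma timeOne_mono {J : N → (E →L[ℝ] ℝ) →ₗ[ℝ] E} (hJ : Dissipative ⊤ J) {h : N → ℝ}
    (hh : Smooth E h) {φ : N → N} (h1 : TimeOne (Jd J h) φ) (x : N) : h x ≤ h (φ x) := by
  obtain ⟨γ, h0, hγ⟩ := exists_traj hJ hh x
  have hd := fun t => hasDerivAt_along1 hγ hh t
  have hmono : Monotone (fun s => h (γ s)) := by
    refine monotone_of_deriv_nonneg (fun t => (hd t).differentiableAt) fun t => ?_
    rw [(hd t).deriv]
    exact hJ.2 (γ t) (diff E h (γ t))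
  have := hmono zero_le_one
  simp only at this
  rw [← h1 γ hγ, h0] at this
  exact this

lemma timeOne_const {J : N → (E →L[ℝ] ℝ) →ₗ[ℝ] E} (hJ : Conservative J) {h : N → ℝ}
    (hh : Smooth E h) {φ : N → N} (h1 : TimeOne (Jd J h) φ) (x : N) : h (φ x) = h x := by
  obtain ⟨γ, h0, hγ⟩ := exists_traj hJ.1 hh x
  have hd := fun t => hasDerivAt_along1 hγ hh t
  have hconst : ∀ s t : ℝ, h (γ s) = h (γ t) := by
    refine is_const_of_deriv_eq_zero (f := fun s => h (γ s)) (fun t => (hd t).differentiableAt)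
      fun t => ?_
    rw [(hd t).deriv]
    exact hJ.2 (γ t) (diff E h (γ t))
  rw [← h0, h1 γ hγ]
  exact hconst 1 0

variable {D : (N → (E →L[ℝ] ℝ) →ₗ[ℝ] E) → Prop}

lemma comp_mono (hD : ∀ J, D J → Dissipative ⊤ J) {h : N → ℝ} (hh : Smooth E h) {F : N → N}
    (hF : Comp D h F) (x : N) : h x ≤ h (F x) := by
  induction hF with
  | id => exact le_rfl
  | step J φ ψ hJ hφ _ ih => exact ih.trans (timeOne_mono (hD J hJ) hh hφ _)

lemma comp_const {h : N → ℝ} (hh : Smooth E h) {F : N → N}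
    (hF : Comp (E := E) (N := N) Conservative h F) (x : N) : h (F x) = h x := by
  induction hF with
  | id => rfl
  | step J φ ψ hJ hφ _ ih => exact (timeOne_const hJ hh hφ _).trans ih

/-- the perturbed function -/
def fam (h : N → ℝ) (e : N → Pk k) (a : Pk k) (x : N) : ℝ := h x + ⟪a, e x⟫

lemma fam_zero (h : N → ℝ) (e : N → Pk k) : fam h e 0 = h := by
  funext x
  simp [fam]

lemma fam_smooth {e : N → Pk k} (he : ContMDiff 𝓘(ℝ, E) 𝓘(ℝ, Pk k) ∞ e) {h : N → ℝ}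
    (hh : Smooth E h) (a : Pk k) : Smooth E (fam h e a) := by
  have hh3 : ContMDiff 𝓘(ℝ, E) 𝓘(ℝ, ℝ) ∞ h := hh
  have hh4 : ContMDiff 𝓘(ℝ, E) 𝓘(ℝ, ℝ) ∞ (fun x => ⟪a, e x⟫) :=
    ((innerSL ℝ a).contMDiff).comp he
  have hh5 : ContDiff ℝ ∞ (fun p : ℝ × ℝ => p.1 + p.2) := contDiff_fst.add contDiff_snd
  exact hh5.contMDiff.comp (hh3.prodMk_space hh4)

/-- the family of time-one maps -/
lemma step_family {e : N → Pk k} (he : ContMDiff 𝓘(ℝ, E) 𝓘(ℝ, Pk k) ∞ e) {h : N → ℝ}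
    (hh : Smooth E h) {J : N → (E →L[ℝ] ℝ) →ₗ[ℝ] E} (hJ : Dissipative ⊤ J) :
    ∃ Φ : Pk k → N → N, SFam (E := E) k Φ ∧ ∀ a, TimeOne (Jd J (fam h e a)) (Φ a) := by
  have hei : ∀ i : Fin k, Smooth E (fun x => e x i) := fun i =>
    ((EuclideanSpace.proj (𝕜 := ℝ) i : Pk k →L[ℝ] ℝ).contMDiff).comp he
  have hco : ∀ a : Pk k, comb (Jd J h) (fun i => a i) (fun i => Jd J (fun x => e x i)) =
      Jd J (fam h e a) := by
    intro a
    funext x
    show addSum (E := E) _ _ _ = J x (diff E (fam h e a) x)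
    have e4 : diff E (fam h e a) x = diff E h x + ∑ i, a i • diff E (fun x => e x i) x :=
      diff_family he hh a x
    rw [e4, map_add, map_sum]
    simp_rw [map_smul]
    rfl
  obtain ⟨Φ, h1, h2⟩ := exists_family (k := k) (X0 := Jd J h) (W := fun i => Jd J (fun x => e x i))
    (hJ.1 h hh) (fun i => hJ.1 _ (hei i)) (fun a => by
      rw [hco a]
      exact hJ.1 _ (fam_smooth he hh a))
  refine ⟨Φ, h1, fun a γ hγ => h2 a γ ?_⟩
  rw [hco a]
  exact hγ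

lemma comp_family (hD : ∀ J, D J → Dissipative ⊤ J) {e : N → Pk k}
    (he : ContMDiff 𝓘(ℝ, E) 𝓘(ℝ, Pk k) ∞ e) {h : N → ℝ} (hh : Smooth E h) {F : N → N}
    (hF : Comp D h F) :
    ∃ Φ : Pk k → N → N, SFam (E := E) k Φ ∧ (∀ x, Φ 0 x = F x) ∧
      ∀ a, Comp D (fam h e a) (Φ a) := by
  induction hF with
  | id => exact ⟨fun _ x => x, SFam.id, fun _ => rfl, fun _ => Comp.id⟩
  | step J φ ψ hJ hφ _ ih =>
    obtain ⟨Ψ, k1, k2, k3⟩ := ih
    obtain ⟨Φ, h1, h2⟩ := step_family he hh (hD J hJ)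
    refine ⟨fun a x => Φ a (Ψ a x), h1.comp k1, fun x => ?_, fun a => ?_⟩
    · show Φ 0 (Ψ 0 x) = φ (ψ x)
      rw [k2]
      have h3 := h2 0
      rw [fam_zero] at h3
      exact timeOne_unique (hD J hJ) hh h3 hφ _
    · exact Comp.step J (Φ a) (Ψ a) hJ (h2 a) (k3 a)

end gen

open Pool.Agent.H718R2.G Pool.Agent.TH80.OMS Pool.Agent.Y504.CO Pool.Agent.Y318.MN
  Pool.Agent.TH80.CLX Pool.Agent.W564.SC

variable {n : ℕ} {N : Type u} [TopologicalSpace N] [T2Space N] [CompactSpace N]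
  [ChartedSpace (V n) N] [IsManifold (𝓡 n) ∞ N]
  {D : (N → (V n →L[ℝ] ℝ) →ₗ[ℝ] V n) → Prop}

/-- approximation by compositions for a Morse function -/
theorem approx_morse (hD : ∀ J, D J → Dissipative ⊤ J) {r : ℕ∞} (hr : 1 ≤ r) (F : DiffM n N r)
    {h : N → ℝ} (hh : Smooth (V n) h) (hF : Comp D h F) (U : Set (DiffM n N r))
    (hU : IsOpen[strongTop n N r] U) (hFU : F ∈ U) :
    ∃ G ∈ U, ∃ f : N → ℝ, Smooth (V n) f ∧ Comp D f G ∧
      ∀ z, Pool.Agent.Y318.MN.IsCrit n f z → Nondeg n f z := by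
  rcases isEmpty_or_nonempty N with hN | ⟨⟨z⟩⟩
  · exact ⟨F, hFU, h, hh, hF, fun z => (hN.false z).elim⟩
  obtain ⟨k, e, he, -, hinj⟩ := exists_embedding_euclidean_of_compact (I := 𝓡 n) (M := N)
  obtain ⟨Φ, h1, h2, h3⟩ := comp_family (E := V n) hD he hh hF
  obtain ⟨H, hH⟩ := h1.diffeo (E := V n) r
  have hfam : IsFam n N r H := by
    intro y
    have h4 : ContMDiff (𝓘(ℝ, Pk k).prod (𝓡 n)) (𝓡 n) r (fun q : Pk k × N => H q.1 q.2) := by
      have h5 : ContMDiff (𝓘(ℝ, Pk k).prod (𝓡 n)) (𝓡 n) r (fun q : Pk k × N => Φ q.1 q.2) :=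
        ContMDiff.of_le h1.1 (by exact_mod_cast le_top)
      exact h5.congr fun q => hH q.1 q.2
    exact h4 (0, y)
  have hH0 : H 0 = F := by
    ext x
    rw [hH, h2]
  obtain ⟨κ, hκ, hmem⟩ := fam_mem r hr H hfam z U hU (by rw [hH0]; exact hFU)
  obtain ⟨a, ha, haκ⟩ : ∃ a : Pk k,
      (∀ x, Pool.Agent.R552.FA.IsCrit (V n) (fun x => h x + ⟪a, e x⟫) x →
        Nd (V n) (fun x => h x + ⟪a, e x⟫) x) ∧ a ∈ ball (0 : Pk k) κ := by
    have h4 := ae_nd (E := V n) he hinj hh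
    have h5 : volume (ball (0 : Pk k) κ) ≠ 0 := (measure_ball_pos _ _ hκ).ne'
    by_contra hcon
    push Not at hcon
    apply h5
    refine measure_mono_null ?_ (ae_iff.1 h4)
    intro a ha hfin
    exact hcon a hfin ha
  rw [mem_ball, dist_zero_right] at haκ
  have hHa : (H a : N → N) = Φ a := funext fun x => hH a x
  refine ⟨H a, hmem a haκ, fam h e a, fam_smooth he hh a, ?_, fun z hz => ha z hz⟩
  rw [hHa]
  exact h3 a

/-- **Approximation by Axiom A diffeomorphisms** -/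
theorem axA (hD : ∀ J, D J → Dissipative ⊤ J) {r : ℕ∞} (hr : 1 ≤ r) (F : DiffM n N r)
    (hF : ∀ U : Set (DiffM n N r), IsOpen[strongTop n N r] U → F ∈ U →
      ∃ G ∈ U, ∃ h, Smooth (V n) h ∧ Comp D h G) (U : Set (DiffM n N r))
    (hU : IsOpen[strongTop n N r] U) (hFU : F ∈ U) :
    ∃ G ∈ U, FiniteNoCycle G ∧ ∀ p ∈ Omega G, IsHyperbolicPer n G p := by
  obtain ⟨F', hF'U, h, hh, hF'⟩ := hF U hU hFU
  obtain ⟨G, hGU, f, hf, hG, hnd⟩ := approx_morse hD hr F' hh hF' U hU hF'U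
  obtain ⟨G', a1, -, a3, a4, a5, -, -⟩ := axiomA_approx hr G hf (comp_mono hD hf hG)
    (fun z hz => hnd z (hz 0).1) U hU hGU
  exact ⟨G', a1, a5, fun p hp => Plug.hyp_charpoly hr G' (a3 hp) (a4 p (a3 hp))⟩

/-- **`Ω`-stable diffeomorphisms** -/
theorem stable (hD : ∀ J, D J → Dissipative ⊤ J) {r : ℕ∞} (hr : 1 ≤ r) (F : DiffM n N r)
    (hF : ∀ U : Set (DiffM n N r), IsOpen[strongTop n N r] U → F ∈ U →
      ∃ G ∈ U, ∃ h, Smooth (V n) h ∧ Comp D h G) (hs : OmegaStable n N r F) :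
    FiniteNoCycle F ∧ ∀ p ∈ Omega F, IsHyperbolicPer n F p := by
  refine closure_main hr hs fun U hU hFU => ?_
  obtain ⟨F', hF'U, h, hh, hF'⟩ := hF U hU hFU
  obtain ⟨G, hGU, f, hf, hG, hnd⟩ := approx_morse hD hr F' hh hF' U hU hF'U
  refine ⟨G, hGU, f, hf, comp_mono hD hf hG, ?_⟩
  exact ((critInv_finite hf fun z hz => hnd z (hz 0).1).subset fun x hx => hx.1.1).countable

/-- **conservative case** -/
theorem not_stable [Nonempty N] (hn : n ≠ 0) {r : ℕ∞} (hr : 1 ≤ r) (F : DiffM n N r)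
    (hF : ∀ U : Set (DiffM n N r), IsOpen[strongTop n N r] U → F ∈ U →
      ∃ G ∈ U, ∃ h, Smooth (V n) h ∧ Comp (E := V n) (N := N) Conservative h G) :
    ¬ OmegaStable n N r F := by
  rintro ⟨U, hU, hFU, hconj⟩
  have hD : ∀ J : N → (V n →L[ℝ] ℝ) →ₗ[ℝ] V n, Conservative J → Dissipative ⊤ J := fun J hJ => hJ.1
  obtain ⟨F', hF'U, h, hh, hF'⟩ := hF U hU hFU
  obtain ⟨G, hGU, f, hf, hG, hnd⟩ := approx_morse hD hr F' hh hF' U hU hF'U
  have hGF : OmegaConj G F := omegaConj_symm F.continuous (hconj G hGU)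
  have hGs : OmegaStable n N r G :=
    ⟨U, hU, hGU, fun G' hG' => omegaConj_trans hGF (hconj G' hG')⟩
  have hR : ((CritInv n G f ∩ Rec G) \ Per G).Countable :=
    ((critInv_finite hf fun z hz => hnd z (hz 0).1).subset fun x hx => hx.1.1).countable
  obtain ⟨-, -, h3⟩ := stable_main hr hGs hf (comp_mono hD hf hG) hR
  have h4 := h3 (comp_const hf hG)
  obtain ⟨z⟩ := ‹Nonempty N›
  have h5 := hnd z (h4 z)
  have hχ : chartAt (V n) z ∈ IsManifold.maximalAtlas (𝓡 n) ∞ N :=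
    IsManifold.chart_mem_maximalAtlas z
  set χ := chartAt (V n) z with hχd
  have hz : z ∈ χ.source := mem_chart_source _ z
  have h6 : fderiv ℝ (fun w => f (χ.symm w)) =ᶠ[𝓝 (χ z)] fun _ => 0 := by
    filter_upwards [χ.open_target.mem_nhds (χ.map_source hz)] with w hw
    have h7 := (crit_iff hf hχ (χ.map_target hw)).1 (h4 (χ.symm w))
    rwa [χ.right_inv hw] at h7
  have h7 : ∀ v : V n, v = 0 := by
    intro v
    refine h5 χ hχ hz v ?_
    rw [h6.fderiv_eq]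
    simp
  have h8 : 0 < n := Nat.pos_of_ne_zero hn
  have h9 := h7 (EuclideanSpace.single ⟨0, h8⟩ 1)
  have h10 := congrArg (fun v : V n => v ⟨0, h8⟩) h9
  simp at h10

end Pool.Agent.R552.FB
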