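import Mathlib
import Pool.Agent.R552.FB.Main
import Pool.Agent.Y318.MN.Attr

/-! Finitude of attractors near the compositions of time-one maps. -/

set_option autoImplicit false
set_option maxHeartbeats 400000

open scoped Topology ContDiff Manifold
open Set MeasureTheory Filter Pool.Agent.R552.FA

noncomputable section

namespace Pool.Agent.R552.FB

universe u

open Pool.Agent.H718R2.G Pool.Agent.TH80.OMS Pool.Agent.Y318.MN

lemma per_of_finite {X : Type u} {G : X → X} (hG : Function.Injective G) {C : Set X}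
    (hC : C.Finite) (hmap : ∀ x ∈ C, G x ∈ C) {x : X} (hx : x ∈ C) :
    ∃ m : ℕ, 1 ≤ m ∧ G^[m] x = x := by
  have hit : ∀ k : ℕ, G^[k] x ∈ C := by
    intro k
    induction k with
    | zero => exact hx
    | succ k ih => rw [Function.iterate_succ_apply']; exact hmap _ ih
  obtain ⟨i, -, j, -, hij, he⟩ := Set.infinite_univ.exists_ne_map_eq_of_mapsTo
    (f := fun k : ℕ => G^[k] x) (t := C) (fun k _ => hit k) hC
  wlog hlt : i < j generalizing i j
  · exact this j i hij.symm he.symm (lt_of_le_of_ne (not_lt.1 hlt) hij.symm)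
  refine ⟨j - i, by omega, ?_⟩
  have h1 : G^[i] (G^[j - i] x) = G^[i] x := by
    rw [← Function.iterate_add_apply, Nat.add_sub_cancel' hlt.le]
    exact he.symm
  exact hG.iterate i h1

/-- the orbit of a point -/
def orb {X : Type u} (G : X → X) (x : X) : Set X := range fun k : ℕ => G^[k] x

lemma orb_eq {X : Type u} {G : X → X} {x y : X} {m : ℕ} (hm : 1 ≤ m) (hx : G^[m] x = x)
    (hy : y ∈ orb G x) : orb G y = orb G x := by
  obtain ⟨k, rfl⟩ := hy
  refine Subset.antisymm ?_ ?_
  · rintro _ ⟨l, rfl⟩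
    exact ⟨l + k, (Function.iterate_add_apply G l k x)⟩
  · have hmm : ∀ q : ℕ, G^[m * q] x = x := by
      intro q
      induction q with
      | zero => rfl
      | succ q ih => rw [Nat.mul_succ, Function.iterate_add_apply, hx, ih]
    rintro _ ⟨l, rfl⟩
    refine ⟨l + (m * k - k), ?_⟩
    have h1 : k ≤ m * k := Nat.le_mul_of_pos_left k hm
    show G^[l + (m * k - k)] (G^[k] x) = G^[l] x
    rw [← Function.iterate_add_apply, add_assoc, Nat.sub_add_cancel h1,
      Function.iterate_add_apply, hmm]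

variable {n : ℕ} {N : Type u} [TopologicalSpace N] [T2Space N] [CompactSpace N]
  [ChartedSpace (V n) N] [IsManifold (𝓡 n) ∞ N]
  {D : (N → (V n →L[ℝ] ℝ) →ₗ[ℝ] V n) → Prop}

theorem attr_morse {r : ℕ∞} (hr : 1 ≤ r) (G : DiffM n N r) {f : N → ℝ} (hf : Smooth (V n) f)
    (hm : ∀ x, f x ≤ f (G x)) (hnd : ∀ z, Pool.Agent.Y318.MN.IsCrit n f z → Nondeg n f z)
    (U : Set (DiffM n N r)) (hU : IsOpen[strongTop n N r] U) (hGU : G ∈ U) :
    ∃ G' ∈ U, ∀ (_ : MeasurableSpace N) (μ : Measure N),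
      Pool.Agent.H728R2.FA.FiniteAttractors μ G' := by
  have hfin : (CritInv n G f).Finite := critInv_finite hf fun z hz => hnd z (hz 0).1
  have hinj : Function.Injective (G : N → N) := G.injective
  have hsymm : ∀ y, G.symm (G y) = y := fun y => G.symm_apply_apply y
  have hmap : ∀ x ∈ CritInv n G f, G x ∈ CritInv n G f := by
    intro x hx k
    refine ⟨?_, ?_⟩
    · have := (hx (k + 1)).1
      rwa [Function.iterate_succ_apply] at this
    · cases k with
      | zero => exact (hx 1).1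
      | succ k =>
        rw [Function.iterate_succ_apply, hsymm]
        exact (hx k).2
  have hit : ∀ x ∈ CritInv n G f, orb G x ⊆ CritInv n G f := by
    rintro x hx _ ⟨k, rfl⟩
    show G^[k] x ∈ _
    induction k with
    | zero => exact hx
    | succ k ih => rw [Function.iterate_succ_apply']; exact hmap _ ih
  obtain ⟨m, M, hMinj, hM⟩ := (hfin.image (orb G)).fin_param
  have hMi : ∀ i, ∃ x ∈ CritInv n G f, orb G x = M i := fun i => by
    have : M i ∈ range M := ⟨i, rfl⟩
    rw [hM] at this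
    exact this
  choose c hc hcM using hMi
  have hself : ∀ x : N, x ∈ orb (G : N → N) x := fun x => ⟨0, rfl⟩
  have a1 : ∀ i, IsClosed (M i) := fun i => by
    rw [← hcM i]
    exact (hfin.subset (hit _ (hc i))).isClosed
  have a2 : ∀ i, G '' M i = M i := fun i => by
    rw [← hcM i]
    obtain ⟨q, hq, hq'⟩ := per_of_finite hinj hfin hmap (hc i)
    refine Subset.antisymm ?_ ?_
    · rintro _ ⟨_, ⟨k, rfl⟩, rfl⟩
      exact ⟨k + 1, Function.iterate_succ_apply' (G : N → N) k (c i)⟩
    · rintro _ ⟨k, rfl⟩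
      cases k with
      | zero =>
        refine ⟨G^[q - 1] (c i), ⟨q - 1, rfl⟩, ?_⟩
        show G (G^[q - 1] (c i)) = c i
        rw [← Function.iterate_succ_apply' (G : N → N), Nat.succ_eq_add_one,
          Nat.sub_add_cancel hq, hq']
      | succ k =>
        exact ⟨G^[k] (c i), ⟨k, rfl⟩, (Function.iterate_succ_apply' (G : N → N) k (c i)).symm⟩
  have a3 : ∀ i j, i ≠ j → Disjoint (M i) (M j) := fun i j hij => by
    rw [← hcM i, ← hcM j]
    rw [Set.disjoint_left]
    intro y hy1 hy2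
    obtain ⟨q, hq, hq'⟩ := per_of_finite hinj hfin hmap (hc i)
    obtain ⟨q2, hq2, hq2'⟩ := per_of_finite hinj hfin hmap (hc j)
    apply hij
    apply hMinj
    rw [← hcM i, ← hcM j, ← orb_eq hq hq' hy1, ← orb_eq hq2 hq2' hy2]
  have a4 : ∀ i, ∀ x ∈ M i, Pool.Agent.Y318.MN.IsCrit n f x := fun i x hx => by
    rw [← hcM i] at hx
    exact ((hit _ (hc i) hx) 0).1
  have a5 : ∀ i, ∃ x ∈ M i, M i ⊆ closure (range fun k : ℕ => G^[k] x) := fun i => by
    refine ⟨c i, ?_, ?_⟩
    · rw [← hcM i]; exact hself _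
    · rw [← hcM i]; exact subset_closure
  have a6 : CritInv n G f ⊆ ⋃ i, M i := fun x hx => by
    have : orb G x ∈ range M := by
      rw [hM]; exact ⟨x, hx, rfl⟩
    obtain ⟨i, hi⟩ := this
    exact mem_iUnion.2 ⟨i, by rw [hi]; exact hself x⟩
  obtain ⟨G', h1, -, h3⟩ := finitude hr G hf hm M a1 a2 a3 a4 a5 a6 U hU hGU
  exact ⟨G', h1, h3⟩

/-- **Finitude of attractors** -/
theorem attr_main (hD : ∀ J, D J → Dissipative ⊤ J) {r : ℕ∞} (hr : 1 ≤ r) (F : DiffM n N r)
    (hF : ∀ U : Set (DiffM n N r), IsOpen[strongTop n N r] U → F ∈ U →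
      ∃ G ∈ U, ∃ h, Smooth (V n) h ∧ Comp D h G) (U : Set (DiffM n N r))
    (hU : IsOpen[strongTop n N r] U) (hFU : F ∈ U) :
    ∃ G ∈ U, ∀ (_ : MeasurableSpace N) (μ : Measure N),
      Pool.Agent.H728R2.FA.FiniteAttractors μ G := by
  obtain ⟨F', hF'U, h, hh, hF'⟩ := hF U hU hFU
  obtain ⟨G, hGU, f, hf, hG, hnd⟩ := approx_morse hD hr F' hh hF' U hU hF'U
  exact attr_morse hr G hf (comp_mono hD hf hG) hnd U hU hGU

end Pool.Agent.R552.FB
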